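import Pool.Agent.R341.Uni11

set_option autoImplicit false

namespace Pool.Agent.Results.MP_e299c6_nt.ClosedLevelSet

open Pool.Agent.R341.Uni

/-- The level set `{x > 0 | q_s(x) = q}`, `q_s(x) = inf U(x)`, at the Komornik–Loreti constant `q`
(the smallest univoque base of `1`) is closed in `(0, ∞)`. -/
theorem result : ∃ q : ℝ, IsLeast (Ux 1) q ∧
    IsClosed {x : Set.Ioi (0 : ℝ) | sInf (Ux (x : ℝ)) = q} := by
  obtain ⟨Q, h1, h2, h3⟩ := exists_KL
  refine ⟨Q, KL_least (by linarith) (by linarith) h3, ?_⟩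
  rw [← closure_subset_iff_isClosed]
  intro x hx
  rw [closure_subtype] at hx
  have hsub : Subtype.val '' {x : Set.Ioi (0 : ℝ) | sInf (Ux (x : ℝ)) = Q} ⊆ LvInf Q := by
    rintro _ ⟨y, hy, rfl⟩
    exact ⟨y.2, hy⟩
  exact (closed_KL (by linarith) (by linarith) h3 x.2 (closure_mono hsub hx)).2

end Pool.Agent.Results.MP_e299c6_nt.ClosedLevelSet
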